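import Mathlib
import Pool.Agent.X255.RH.Main
import Pool.Agent.Q136.LR.Loc

/-!
# Gamma values at commensurable arguments and all roots of almost all integral polynomials

We consider the gamma function and its logarithmic derivatives at the arguments `c_i x + x_i`, where the `c_i ≠ 0` are rational numbers,
the `x_i` complex (for instance rational) numbers, and `x` runs through ALL the roots of an integral polynomial of degree `g`; for `g = 1` these
are rational numbers, for `g ≥ 2` algebraic numbers of degree `g` with all their conjugates. Between the functions `Γ(c_i z + x_i)` there are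
the relations which follow from the functional equation, the reflection formula and the multiplication formula; these are the relations on
which Rohrlich's conjecture is based. By these formulas a product of powers `Γ(c_i z + x_i)^(m_i)` is elementary if (and only if) the function
`∑ ± m_i [c_i y ∈ x_i + ℤ]` of `y` vanishes, where `±` is the sign of `c_i` and the bracket is `1` if the condition holds and `0` if not. We assume
that there is no such relation: these functions of `y` are linearly independent. For instance this is so for `Γ(z), Γ(z + 1/3), Γ(2 z)`, and for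
the `q` functions `Γ(z + a/q)`, `0 ≤ a < q`.

We prove: for almost all integral polynomials with coefficients at most `T` the numbers `Γ(c_i x + x_i)`, the derivatives `ψ^(k)(c_i x + x_i)`,
`k < s`, of the digamma function `ψ = Γ' / Γ`, and the numbers `exp(l_j x)` (the `l_j` and `2 π i` being linearly independent over the rational
numbers; for instance `e^x`, `2^x`, `3^x`), at all roots `x` together, satisfy no algebraic relation over number fields whose degree and whose field degree is at
most `ω(T)` and whose height is at most `T ^ ω(T)`, where `ω(T) → ∞`; the coefficients of the relations may contain arbitrary given complex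
numbers `ξ_0, ξ_1, …`, for instance the powers of `π`, Euler's constant or the values of `Γ` at all rational numbers. So at these algebraic
numbers all relations of this size between Gamma values come from the known formulas, and no product of the numbers `Γ(c_i x + x_i)` is an
algebraic multiple (of such a size) of a power of `π`.

The proof is an application of `Pool.Agent.X255.RH.main_all` (values of algebraically independent functions at the roots of almost all
polynomials) and `Pool.Agent.Q136.LR.loc` (algebraic independence of these functions over `ℂ(x)`).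
-/

set_option autoImplicit false

open Polynomial Filter Topology NumberField

namespace Pool.Agent.Results.MP_c2409d_nt.AllRootsOfPolynomials

/-- The integral vectors `a = (a_0, …, a_g)` with `|a_i| ≤ T`. -/
noncomputable def box (g T : ℕ) : Finset (Fin (g + 1) → ℤ) := Fintype.piFinset fun _ => Finset.Icc (-(T : ℤ)) (T : ℤ)

/-- The polynomial `a_0 + a_1 x + … + a_g x^g`. -/
noncomputable def poly {g : ℕ} (a : Fin (g + 1) → ℤ) : ℂ[X] := ∑ i, C (a i : ℂ) * X ^ (i : ℕ)

/-- The points `z` such that no `c_i z + x_i` is a pole `-m` of `Γ`. -/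
def noPole {r : ℕ} (c : Fin r → ℚ) (x : Fin r → ℂ) : Set ℂ := {z | ∀ i, ∀ m : ℕ, (c i : ℂ) * z + x i ≠ -m}

/-- The roots of the polynomial with the coefficients `a` at which no `c_i z + x_i` is a pole of `Γ`. -/
noncomputable def roots {g r : ℕ} (c : Fin r → ℚ) (x : Fin r → ℂ) (a : Fin (g + 1) → ℤ) : Finset ℂ := by
  classical exact (poly a).roots.toFinset.filter fun z => z ∈ noPole c x

/-- The functions `ψ^(k)(c_i z + x_i)`, `k < s`, where `ψ` is the logarithmic derivative of `Γ`, the functions `Γ(c_i z + x_i)` and the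
functions `exp(l_j z)`. -/
noncomputable def values {r u : ℕ} (s : ℕ) (c : Fin r → ℚ) (x : Fin r → ℂ) (l : Fin u → ℂ) :
    (Fin r × Fin s) ⊕ (Fin r ⊕ Fin u) → ℂ → ℂ
  | Sum.inl p, z => iteratedDeriv (p.2 : ℕ) Complex.digamma ((c p.1 : ℂ) * z + x p.1)
  | Sum.inr (Sum.inl i), z => Complex.Gamma ((c i : ℂ) * z + x i)
  | Sum.inr (Sum.inr j), z => Complex.exp (l j * z)

/-- The bracket `[c y ∈ x + ℤ]`. -/
noncomputable def bracket (c : ℚ) (x y : ℂ) : ℚ := by
  classical exact if ∃ n : ℤ, (c : ℂ) * y = x + n then 1 else 0

/-- There is no relation between the functions `Γ(c_i z + x_i)` which follows from the functional equation, the reflection formula and the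
multiplication formula: the brackets `[c_i y ∈ x_i + ℤ]` are linearly independent functions of `y`. -/
def NoStandardRelation {r : ℕ} (c : Fin r → ℚ) (x : Fin r → ℂ) : Prop :=
  ∀ m : Fin r → ℚ, (∀ y : ℂ, ∑ i, m i * bracket (c i) (x i) y = 0) → m = 0

/-- The numbers `x q` satisfy no relation of degree at most `k` in each of them with coefficients `∑_{b < k} ξ_b c_b`, where the `c_b` are
integers of a number field of degree at most `k` all of whose conjugates are at most `T ^ k`, except the relations all of whose coefficients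
vanish. -/
def NoRelation {Q : Type} [Fintype Q] [DecidableEq Q] (ξ : ℕ → ℂ) (k : ℕ) (T : ℝ) (x : Q → ℂ) : Prop :=
  ∀ (F : Type) [Field F] [NumberField F], Module.finrank ℚ F ≤ k → ∀ (io : F →+* ℂ)
    (c : (Q → Fin (k + 1)) → Fin k → 𝓞 F), (∀ l b (φ : F →+* ℂ), ‖φ (c l b : F)‖ ≤ T ^ k) →
    ∑ l, (∑ b : Fin k, ξ b * io (c l b : F)) * ∏ q, x q ^ (l q : ℕ) = 0 → ∀ l, ∑ b : Fin k, ξ b * io (c l b : F) = 0

/-- The polynomial with the coefficients `a` has degree `g` and simple roots, and there is no relation between the values of our functions at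
all its roots `x` (where all of them are defined) together. -/
def Good {g r u : ℕ} (s : ℕ) (c : Fin r → ℚ) (x : Fin r → ℂ) (l : Fin u → ℂ) (ξ : ℕ → ℂ) (k : ℕ) (T : ℝ)
    (a : Fin (g + 1) → ℤ) : Prop :=
  a (Fin.last g) ≠ 0 ∧ (poly a).Separable ∧
    NoRelation ξ k T fun q : {z // z ∈ roots c x a} × ((Fin r × Fin s) ⊕ (Fin r ⊕ Fin u)) => values s c x l q.2 q.1

section
variable {r u s : ℕ} {c : Fin r → ℚ} {x : Fin r → ℂ} {l : Fin u → ℂ}

theorem isOpen_of_loc {S : Set ℂ} (hS : ∀ R : ℝ, (S ∩ Metric.closedBall 0 R).Finite) : IsOpen Sᶜ := by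
  rw [isOpen_iff_mem_nhds]
  intro z hz
  have h1 : IsOpen (Metric.ball z 1 ∩ (S ∩ Metric.closedBall 0 (‖z‖ + 1))ᶜ) :=
    Metric.isOpen_ball.inter (hS _).isClosed.isOpen_compl
  refine Filter.mem_of_superset (h1.mem_nhds ⟨Metric.mem_ball_self one_pos, fun h => hz h.1⟩) ?_
  rintro w ⟨hw1, hw2⟩ hw3
  refine hw2 ⟨hw3, ?_⟩
  rw [mem_closedBall_zero_iff]
  have h2 : ‖w - z‖ < 1 := by rwa [Metric.mem_ball, dist_eq_norm] at hw1
  have h3 : ‖w‖ ≤ ‖w - z‖ + ‖z‖ := by
    have := norm_add_le (w - z) z
    rwa [sub_add_cancel] at this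
  linarith

theorem countable_of_loc {S : Set ℂ} (hS : ∀ R : ℝ, (S ∩ Metric.closedBall 0 R).Finite) : S.Countable := by
  have h1 : S = ⋃ n : ℕ, S ∩ Metric.closedBall 0 (n : ℝ) := by
    ext z
    simp only [Set.mem_iUnion, Set.mem_inter_iff, mem_closedBall_zero_iff]
    constructor
    · intro hz
      obtain ⟨n, hn⟩ := exists_nat_ge ‖z‖
      exact ⟨n, hz, hn⟩
    · rintro ⟨_, hz, _⟩
      exact hz
  rw [h1]
  exact Set.countable_iUnion fun n => (hS n).countable

theorem poles_finite (hc : ∀ i, c i ≠ 0) (R : ℝ) : ((noPole c x)ᶜ ∩ Metric.closedBall 0 R).Finite := by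
  have hcC : ∀ i, ((c i : ℂ)) ≠ 0 := fun i => by exact_mod_cast hc i
  have hb : ∀ i, ∃ M : ℕ, ∀ z ∈ Metric.closedBall (0 : ℂ) R, ‖(c i : ℂ) * z + x i‖ ≤ M := by
    intro i
    obtain ⟨M, hM⟩ := exists_nat_ge (‖(c i : ℂ)‖ * R + ‖x i‖)
    refine ⟨M, fun z hz => le_trans ?_ hM⟩
    rw [mem_closedBall_zero_iff] at hz
    refine (norm_add_le _ _).trans ?_
    rw [norm_mul]
    gcongr
  choose M hM using hb
  have h1 : ((noPole c x)ᶜ ∩ Metric.closedBall 0 R) ⊆
      ⋃ i : Fin r, ⋃ m ∈ Finset.range (M i + 1), {z : ℂ | z = (-(m : ℂ) - x i) / c i} := by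
    rintro z ⟨hz1, hz2⟩
    have hz1' : ¬ ∀ i, ∀ m : ℕ, (c i : ℂ) * z + x i ≠ -m := hz1
    push Not at hz1'
    obtain ⟨i, m, him⟩ := hz1'
    simp only [Set.mem_iUnion]
    refine ⟨i, m, ?_, ?_⟩
    · rw [Finset.mem_range, Nat.lt_succ_iff]
      have h2 := hM i z hz2
      rw [him, norm_neg, Complex.norm_natCast] at h2
      exact_mod_cast h2
    · change z = _
      rw [eq_div_iff (hcC i)]
      linear_combination him
  refine Set.Finite.subset ?_ h1
  refine Set.finite_iUnion fun i => Set.Finite.biUnion (Finset.finite_toSet _) fun m _ => ?_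
  exact Set.finite_singleton _

theorem conn (hc : ∀ i, c i ≠ 0) : IsConnected (noPole c x) := by
  have h1 := (countable_of_loc (poles_finite (x := x) hc)).isConnected_compl_of_one_lt_rank (by
    rw [Complex.rank_real_complex]
    norm_num)
  rwa [compl_compl] at h1

theorem isOpen_noPole (hc : ∀ i, c i ≠ 0) : IsOpen (noPole c x) := by
  have h1 := isOpen_of_loc (poles_finite (x := x) hc)
  rwa [compl_compl] at h1

theorem values_eq : values s c x l = Pool.Agent.Q136.LR.fn s (fun i => (c i : ℂ)) x l := by
  funext y z
  rcases y with p | i | j <;> rfl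

theorem an (y : (Fin r × Fin s) ⊕ (Fin r ⊕ Fin u)) : AnalyticOnNhd ℂ (values s c x l y) (noPole c x) := by
  intro z hz
  rw [values_eq]
  exact Pool.Agent.Q136.LR.fn_an _ _ _ y hz

theorem ind (hc : ∀ i, c i ≠ 0) (hx : NoStandardRelation c x)
    (hl : ∀ (n : Fin u → ℤ) (k : ℚ), ∑ j, n j * l j = 2 * Real.pi * Complex.I * k → n = 0) :
    Pool.Agent.X255.RH.Indep (noPole c x) (values s c x l) := by
  classical
  obtain ⟨z0, hz0⟩ := (conn (x := x) hc).nonempty
  have h1 : Pool.Agent.Y124.LocInd (values s c x l) z0 := by
    rw [values_eq]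
    refine Pool.Agent.Q136.LR.loc s c hc x l hl (fun m hm => hx m fun y => ?_) z0 hz0
    refine Eq.trans (Finset.sum_congr rfl fun i _ => ?_) (hm y)
    unfold bracket Pool.Agent.Q136.LR.CosQ
    split_ifs <;> rfl
  refine Pool.Agent.X255.RH.indep_of_aindepS fun P hP => h1 P ?_
  filter_upwards [(isOpen_noPole (x := x) hc).mem_nhds hz0] with t ht using hP t ht

end

open scoped Classical in
/-- **All roots of almost all polynomials.** Let `c_1, …, c_r` be rational numbers different from `0` and `x_1, …, x_r` complex numbers such that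
there is no standard relation between the functions `Γ(c_i z + x_i)`. Let `l_1, …, l_u` be complex numbers no nontrivial integral combination of which
is a rational multiple of `2 π i`. For every degree `g ≥ 1`, every `s` and all complex numbers `ξ_0, ξ_1, …` there is a function `ω(T) → ∞` such that
among the `(2 T + 1)^(g + 1)` integral polynomials with coefficients at most `T` at most the proportion `1 / ω(T)` is not good. -/
theorem result (g : ℕ) (hg : 0 < g) (r u s : ℕ) (c : Fin r → ℚ) (hc : ∀ i, c i ≠ 0) (x : Fin r → ℂ)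
    (hx : NoStandardRelation c x) (l : Fin u → ℂ)
    (hl : ∀ (n : Fin u → ℤ) (k : ℚ), ∑ j, n j * l j = 2 * Real.pi * Complex.I * k → n = 0) (ξ : ℕ → ℂ) :
    ∃ ω : ℕ → ℕ, Tendsto ω atTop atTop ∧ Monotone ω ∧ ∀ T : ℕ,
      ω T * ((box g T).filter fun a => ¬ Good s c x l ξ (ω T) T a).card ≤ (box g T).card :=
  Pool.Agent.X255.RH.main_all hg (conn hc).isPreconnected (isOpen_noPole hc) (fun _ => noPole c x)
    (fun _ => by
      have h1 := Pool.Agent.X255.RH.tame_of_discrete (poles_finite (x := x) hc)
      rwa [compl_compl] at h1) an (ind hc hx hl) ξ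

end Pool.Agent.Results.MP_c2409d_nt.AllRootsOfPolynomials
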