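import Pool.Agent.N84.MD.G
import Pool.Agent.Results.MP_c2409d_nt.CommensurableArguments

/-!
# Rohrlich's conjecture at all rational approximations of real numbers, up to a set of Hausdorff dimension zero

The numbers `a_i = c_i t_{j(i)} + x_i` are affine functions with rational coefficients of one of `n` rational parameters;
arguments with the same parameter are commensurable, so that Rohrlich's identity may hold for all values of the parameters
or not. We prove the open direction of Rohrlich's conjecture, for the multiples `α π ^ (r/2)` whose factor `α` is of bounded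
complexity over the numbers `e(t_k / N)` and `p ^ (t_k / N)`, for ALL the rational tuples `t` which are near a given real tuple
`y` (in terms of their denominators), from some point on, for all `y` outside a set of small Hausdorff dimension.

For one parameter, `n = 1`, the dimension of the exceptional set is zero, even if all the rational numbers `t` with
`|y - t| ≤ T ^ (-τ)` and denominator at most `T` are considered, where `τ > 0` is arbitrarily small. In particular for all `y`
but a set of dimension zero (thus for all the `y` of a set of full dimension in any given set of positive dimension) there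
are no exceptions among the convergents of `y` with sufficiently large denominators. For `n` parameters the dimension is
at most `2 (n - 1) / τ`, for instance at most `n - 1` for `τ = 2`.

Proof: the starting theorem `CommensurableArguments` of this problem bounds the number of the exceptional tuples with
entries in any finite set of rational numbers; the Hausdorff-Cantelli lemma (`Pool.Agent.N84.MD`).
-/

set_option autoImplicit false

open Set Filter MeasureTheory
open scoped ENNReal

namespace Pool.Agent.Results.MP_c2409d_nt.ApproximationsOfRealTuples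

open Pool.Agent.Results.MP_c2409d_nt.CommensurableArguments (args Identity Simple Exceptional)

/-- The open direction of Rohrlich's conjecture for the numbers `a_i = c_i t_{j(i)} + x_i` and simple factors `α`. -/
def Rohrlich {n r : ℕ} (c x : Fin r → ℚ) (j : Fin r → Fin n) (N B d : ℕ) (H : ℝ) (t : Fin n → ℚ) : Prop :=
  ∀ α : ℂ, ((∏ i, Real.Gamma (args c x j t i) : ℝ) : ℂ) = α * ((Real.pi ^ ((r : ℝ) / 2) : ℝ) : ℂ) →
    Simple N B d H t α → Identity (args c x j t)

/-- For all `N ≥ 1`, `B`, `d`, `A` and all large `T`: the conjecture holds, for factors which are simple with coefficients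
at most `T ^ A`, at all the rational tuples `t` with coordinates in `[a, b]`, denominators at most `T` and
`|y_k - t_k| ≤ T ^ (-τ)`. -/
def AllApproximations {n r : ℕ} (c x : Fin r → ℚ) (j : Fin r → Fin n) (a b τ : ℝ) (y : Fin n → ℝ) : Prop :=
  ∀ N B d A : ℕ, 0 < N → ∀ᶠ T : ℝ in atTop, ∀ t : Fin n → ℚ,
    (∀ k, (t k : ℝ) ∈ Icc a b ∧ ((t k).den : ℝ) ≤ T ∧ |y k - t k| ≤ T ^ (-τ)) → Rohrlich c x j N B d (T ^ (A : ℝ)) t

/-- a larger `τ` is weaker -/
theorem AllApproximations.mono {n r : ℕ} {c x : Fin r → ℚ} {j : Fin r → Fin n} {a b τ τ' : ℝ} {y : Fin n → ℝ}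
    (h : AllApproximations c x j a b τ y) (hτ : τ ≤ τ') : AllApproximations c x j a b τ' y := by
  intro N B d A hN
  filter_upwards [h N B d A hN, eventually_ge_atTop 1] with T hT hT1 t ht
  refine hT t fun k => ⟨(ht k).1, (ht k).2.1, (ht k).2.2.trans ?_⟩
  exact Real.rpow_le_rpow_of_exponent_le hT1 (by linarith)

/-- Let `c_i ≠ 0` and `x_i` be rational numbers and `[a, b]` an interval on which no `c_i s + x_i` is a pole of the gamma
function. For `τ > 0` the property `AllApproximations` holds for all `y` in `ℝⁿ` but a set of Hausdorff dimension at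
most `2 (n - 1) / τ`, and for almost all `y` if `τ > 2 - 2 / n`. If `n = 1` then it holds for all `τ > 0`, for all real
numbers `y` but a set of Hausdorff dimension zero. -/
theorem result (n r : ℕ) (hn : 1 ≤ n) (c : Fin r → ℚ) (hc : ∀ i, c i ≠ 0) (x : Fin r → ℚ) (j : Fin r → Fin n) (a b : ℝ)
    (hpole : ∀ i (s : ℝ), a ≤ s → s ≤ b → ∀ k : ℕ, (c i : ℝ) * s + x i ≠ -k) :
    (∀ τ : ℝ, 0 < τ →
      dimH {y : Fin n → ℝ | ¬ AllApproximations c x j a b τ y} ≤ ENNReal.ofReal (2 * ((n : ℝ) - 1) / τ) ∧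
      (2 * ((n : ℝ) - 1) < τ * n → ∀ᵐ y : Fin n → ℝ, AllApproximations c x j a b τ y)) ∧
    (n = 1 → dimH {y : Fin n → ℝ | ¬ ∀ τ : ℝ, 0 < τ → AllApproximations c x j a b τ y} = 0) := by
  have hn1 : (1 : ℝ) ≤ n := by exact_mod_cast hn
  have hs : 0 ≤ 2 * ((n : ℝ) - 1) := by linarith
  obtain ⟨K, hK0, hK⟩ := Pool.Agent.N84.MD.rats a b
  have main : ∀ τ : ℝ, 0 < τ →
      dimH {y : Fin n → ℝ | ¬ AllApproximations c x j a b τ y} ≤ ENNReal.ofReal (2 * ((n : ℝ) - 1) / τ) := by
    intro τ hτ
    have hsub : {y : Fin n → ℝ | ¬ AllApproximations c x j a b τ y} ⊆ ⋃ v : ℕ × ℕ × ℕ × ℕ,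
        {y : Fin n → ℝ | 0 < v.1 ∧ ¬ ∀ᶠ T : ℝ in atTop, ∀ t ∈ {t : Fin n → ℚ | (∀ k, (t k : ℝ) ∈ Icc a b ∧
          ((t k).den : ℝ) ≤ T) ∧ ¬ Rohrlich c x j v.1 v.2.1 v.2.2.1 (T ^ (v.2.2.2 : ℝ)) t},
            ¬ ∀ k, |y k - (fun (t : Fin n → ℚ) k => (t k : ℝ)) t k| ≤ T ^ (-τ)} := by
      intro y hy
      rw [Set.mem_ofPred_eq] at hy
      unfold AllApproximations at hy
      push Not at hy
      obtain ⟨N, B, d, A, hN, h1⟩ := hy
      rw [Set.mem_iUnion]
      refine ⟨(N, B, d, A), hN, fun h2 => ?_⟩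
      refine absurd h1 ?_
      rw [Filter.not_frequently]
      filter_upwards [h2] with T hT
      push Not
      intro t ht
      by_contra hcon
      exact hT t ⟨fun k => ⟨(ht k).1, (ht k).2.1⟩, hcon⟩ fun k => (ht k).2.2
    refine le_trans (dimH_mono hsub) ?_
    rw [dimH_iUnion]
    refine iSup_le ?_
    rintro ⟨N, B, d, A⟩
    by_cases hN : 0 < N
    swap
    · refine le_trans (dimH_mono (t := ∅) ?_) (by rw [dimH_empty]; exact zero_le)
      rintro y ⟨h1, -⟩
      exact absurd h1 hN
    have h := Pool.Agent.N84.MD.scales_eps (X := Fin n) (S := Fin n → ℚ) (fun t k => (t k : ℝ))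
      (fun T => {t : Fin n → ℚ | (∀ k, (t k : ℝ) ∈ Icc a b ∧ ((t k).den : ℝ) ≤ T) ∧
        ¬ Rohrlich c x j N B d (T ^ (A : ℝ)) t})
      (fun T => {t : Fin n → ℚ | (∀ k, (t k : ℝ) ∈ Icc a b ∧ ((t k).den : ℝ) ≤ T) ∧
        ¬ Rohrlich c x j N B d (T ^ (A : ℝ)) t}) hs hτ
      ⟨1, fun T T' hT h1 h2 t ht => by
        refine ⟨fun k => ⟨(ht.1 k).1, (ht.1 k).2.trans h1⟩, fun h3 => ht.2 ?_⟩
        intro α h4 h5
        refine h3 α h4 ?_
        obtain ⟨P, h6, h7, h8, h9⟩ := h5
        exact ⟨P, h6, h7, fun s => (h8 s).trans (Real.rpow_le_rpow (by linarith) h1 (Nat.cast_nonneg A)), h9⟩⟩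
      (by
        intro ε hε
        obtain ⟨C, T₀, H⟩ := Pool.Agent.Results.MP_c2409d_nt.CommensurableArguments.result n r c hc x j a b hpole N B d hN
          A ε hε
        refine ⟨|C| * K ^ (n - 1), max T₀ 1, fun T hT => ?_⟩
        have hT1 : 1 ≤ T := (le_max_right _ _).trans hT
        have hT0 : 0 < T := by linarith
        obtain ⟨X, hX1, hX2⟩ := hK T hT1
        obtain ⟨h1, h2⟩ := H T ((le_max_left _ _).trans hT) X fun q hq => (hX1 q).1 hq
        have h3 : {t : Fin n → ℚ | (∀ k, (t k : ℝ) ∈ Icc a b ∧ ((t k).den : ℝ) ≤ T) ∧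
            ¬ Rohrlich c x j N B d (T ^ (A : ℝ)) t} ⊆ Exceptional c x j N B d (T ^ (A : ℝ)) X := by
          rintro t ⟨h4, h5⟩
          unfold Rohrlich at h5
          push Not at h5
          obtain ⟨α, h6, h7, h8⟩ := h5
          exact ⟨fun k => (hX1 _).2 ⟨(h4 k).1.1, (h4 k).1.2, (h4 k).2⟩, h8, α, h6, h7⟩
        refine ⟨h1.subset h3, ?_⟩
        have h4 : (({t : Fin n → ℚ | (∀ k, (t k : ℝ) ∈ Icc a b ∧ ((t k).den : ℝ) ≤ T) ∧
            ¬ Rohrlich c x j N B d (T ^ (A : ℝ)) t}.ncard : ℕ) : ℝ) ≤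
            ((Exceptional c x j N B d (T ^ (A : ℝ)) X).ncard : ℝ) := by
          exact_mod_cast Set.ncard_le_ncard h3 h1
        refine h4.trans (h2.trans ?_)
        have h5 : (X.card : ℝ) ^ (n - 1) ≤ (K * T ^ (2 : ℕ)) ^ (n - 1) :=
          pow_le_pow_left₀ (Nat.cast_nonneg _) hX2 _
        have h6 : T ^ (2 * ((n : ℝ) - 1) + ε) = T ^ ε * (T ^ (2 : ℕ)) ^ (n - 1) := by
          rw [← pow_mul, ← Real.rpow_natCast T (2 * (n - 1)), ← Real.rpow_add hT0]
          congr 1
          push_cast [Nat.cast_sub hn]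
          ring
        calc C * T ^ ε * (X.card : ℝ) ^ (n - 1) ≤ |C| * T ^ ε * (K * T ^ (2 : ℕ)) ^ (n - 1) := by
              apply mul_le_mul _ h5 (by positivity) (by positivity)
              exact mul_le_mul_of_nonneg_right (le_abs_self C) (by positivity)
          _ = |C| * K ^ (n - 1) * T ^ (2 * ((n : ℝ) - 1) + ε) := by
              rw [h6, mul_pow]
              ring)
    refine le_trans (dimH_mono ?_) h
    rintro y ⟨-, h1⟩
    exact h1
  refine ⟨fun τ hτ => ⟨main τ hτ, fun hlt => ?_⟩, fun hn' => ?_⟩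
  · rw [ae_iff]
    refine Pool.Agent.N84.MD.null_of_dim (main τ hτ) (by positivity) ?_
    rw [div_lt_iff₀ hτ]
    linarith
  · have hsub : {y : Fin n → ℝ | ¬ ∀ τ : ℝ, 0 < τ → AllApproximations c x j a b τ y} ⊆
        ⋃ m : ℕ, {y : Fin n → ℝ | ¬ AllApproximations c x j a b (1 / ((m : ℝ) + 1)) y} := by
      intro y hy
      rw [Set.mem_ofPred_eq] at hy
      push Not at hy
      obtain ⟨τ, hτ, h1⟩ := hy
      obtain ⟨m, hm⟩ := exists_nat_one_div_lt hτ
      rw [Set.mem_iUnion]
      exact ⟨m, fun h2 => h1 (h2.mono hm.le)⟩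
    refine le_antisymm (le_trans (dimH_mono hsub) ?_) zero_le
    rw [dimH_iUnion]
    refine iSup_le fun m => ?_
    refine (main (1 / ((m : ℝ) + 1)) (by positivity)).trans (le_of_eq ?_)
    rw [hn']
    simp

end Pool.Agent.Results.MP_c2409d_nt.ApproximationsOfRealTuples
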