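import Mathlib
import Pool.Agent.N778.CH.Fam

set_option autoImplicit false

/-!
# Relations between gamma values and complete families of incomplete gamma values

For rational numbers `0 < a < 1` and `x ≥ 0` let `Γ(a, x) = ∫_x^∞ t^(a-1) e^(-t) dt`, so that `Γ(a, 0) = Γ(a)`. For rational
numbers `a`, `x` and `l ≥ 1` let `E_{a,l}(x) = ∑_{m ≥ 1} (-1)^(m+1) x^m / (m! (m + a)^l)`. Let `M` be the field generated by
`e` and all the numbers `E_{a,l}(x)`, `x > 0`, where `a = 0`, `l ≥ 1` or `0 < a < 1`, `l ≥ 2`.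

(1) For each rational number `a` with `0 < a < 1` one can leave out at most one of the numbers `Γ(a, x)`, `x ≥ 0`, such that
all the remaining numbers, for all `a` together, are algebraically independent over `M`.

(2) There is a set `S` of rational numbers such that the numbers `Γ(a)`, `a ∈ S`, and the numbers `Γ(a, x)`, `a ∉ S`, `x > 0`
(`0 < a < 1`) are algebraically independent over `M`. We call such a set `S` independent. For `a ∉ S` the family of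
all the numbers `Γ(a, x)`, `x > 0`, is complete: no number has to be left out.

(3) Every independent relation between the gamma values gives a complete family. Let `S` be an independent set, `A` a finite
set of rational numbers in `(0, 1)`, and let `v_1, …, v_s` be linearly independent vectors with rational components such
that the products `∏_{a ∈ A} Γ(a)^(v_i(a))` are algebraic over `M`. Then at least `s` elements of `A` are not in `S`. (So it
is for the products of the question, because `π^(r/2)` is `Γ(1/2)^r`: every product `Γ(a_1) ⋯ Γ(a_r)`, `0 < a_i < 1`, which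
is an algebraic multiple of `π^(r/2)` and in which not all `a_i` are `1/2`, gives a complete family `Γ(a, x)`, `x > 0`,
where `a` is one of the `a_i` or `1/2`.)

(4) Let `S` be an independent set and `n ≥ 2`. At least `3 * 2^(n-2) - 2` of the `2^n - 1` numbers `a = j / 2^n`,
`0 < j < 2^n`, are not in `S`. So for at least `3 * 2^(n-2) - 2` of these `a` all the numbers `Γ(a, x)`, `x > 0`, are
together algebraically independent over `M`.

(5) Let `A` be a finite set of rational numbers in `(0, 1)`, for which the numbers `Γ(a)` are algebraic over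
`ℚ(e, y_1, …, y_r)`, `X` a finite set of positive rational numbers, `B` a finite set of triples `(a, l, x)` as above. For
every `D` there are `κ` and `c > 0` such that for every `H ≥ 1` there is a subset `S` of `A` with at most `r` elements,
such that for all nonzero integral polynomials `P` of degree at most `D` and height at most `H` the value of `P` at `e`,
`E_b` (`b ∈ B`), `Γ(a)` (`a ∈ S`), `Γ(a, x)` (`a ∈ A \ S`, `x ∈ X`) is at least `c / H ^ κ` in absolute value.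
-/

namespace Pool.Agent.Results.MP_c2409d_nt.CompleteFamilies

open Set MeasureTheory MvPolynomial

/-- `Γ(a, x) = ∫_x^∞ t^(a-1) e^(-t) dt` -/
noncomputable def upper (a x : ℚ) : ℝ := ∫ t in Ioi (x : ℝ), t ^ ((a : ℝ) - 1) * Real.exp (-t)

/-- `E_{a,l}(x) = ∑_{m ≥ 1} (-1)^(m+1) x^m / (m! (m + a)^l)` -/
noncomputable def E (a : ℚ) (l : ℕ) (x : ℚ) : ℝ :=
  ∑' m : ℕ, (-1) ^ m * (x : ℝ) ^ (m + 1) / ((m + 1).factorial * ((m : ℝ) + 1 + a) ^ l)

/-- the triples `(a, l, x)`, `x > 0`, where `a = 0`, `l ≥ 1` or `0 < a < 1`, `l ≥ 2` -/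
def BaseValid (b : ℚ × ℕ × ℚ) : Prop := (b.1 = 0 ∧ 1 ≤ b.2.1 ∨ (0 < b.1 ∧ b.1 < 1) ∧ 2 ≤ b.2.1) ∧ 0 < b.2.2

/-- the field `M` -/
noncomputable def bigField : IntermediateField ℚ ℝ :=
  IntermediateField.adjoin ℚ ({Real.exp 1} ∪ {z | ∃ (a : ℚ) (l : ℕ) (x : ℚ), BaseValid (a, l, x) ∧ z = E a l x})

/-- the numbers `Γ(a)`, `a ∈ S`, and `Γ(a, x)`, `a ∉ S`, `x > 0` (`0 < a < 1`) are algebraically independent over `M` -/
def Independent (S : Set ℚ) : Prop :=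
  AlgebraicIndependent bigField (Sum.elim (fun a : {a : ℚ // (0 < a ∧ a < 1) ∧ a ∈ S} => Real.Gamma (a : ℚ))
    (fun p : {p : ℚ × ℚ // ((0 < p.1 ∧ p.1 < 1) ∧ p.1 ∉ S) ∧ 0 < p.2} => upper p.1.1 p.1.2))

/-- the numbers `e` and `E_b`, `b ∈ B` -/
noncomputable def base (B : Finset (ℚ × ℕ × ℚ)) : Option B → ℝ
  | none => Real.exp 1
  | some b => E b.1.1 b.1.2.1 b.1.2.2

/-- every nonzero integral polynomial of degree at most `D` and height at most `H` has at the point `θ` an absolute value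
`≥ δ` -/
def Good {ι : Type} (θ : ι → ℝ) (D : ℕ) (δ H : ℝ) : Prop :=
  ∀ P : MvPolynomial ι ℤ, P ≠ 0 → P.totalDegree ≤ D → (∀ s, |((P.coeff s : ℤ) : ℝ)| ≤ H) → δ ≤ |aeval θ P|

open Pool.Agent.N778.CH (Gs GOK BG bg θG UG starG_Q starG_scale θG_indepQ)
open Pool.Agent.N778.AF (Scale AK cst clA subset_clA cst_mem_of cst_mem clA_mono card_leA Ma)
open Pool.Agent.R352.E (clF mem_clF subset_clF clF_mono clF_le mem_cl_iff card_le_card)
open Pool.Agent.R352.T (EA gu)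

theorem E_eq (b : ℚ × ℕ × ℚ) : E b.1 b.2.1 b.2.2 = EA (b.1 : ℝ) b.2.1 (b.2.2 : ℝ) := by
  rw [E, EA]
  congr 1
  funext m
  rw [neg_pow (b.2.2 : ℝ) (m + 1), pow_succ (-1 : ℝ) m]
  ring

theorem bigField_eq : bigField = IntermediateField.adjoin ℚ (range bg) := by
  rw [bigField]
  congr 1
  ext z
  constructor
  · rintro (hz | ⟨a, l, x, hb, rfl⟩)
    · exact ⟨none, (mem_singleton_iff.1 hz).symm⟩
    · exact ⟨some ⟨(a, l, x), hb⟩, (E_eq (a, l, x)).symm⟩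
  · rintro ⟨o, rfl⟩
    cases o with
    | none => exact Or.inl rfl
    | some b => exact Or.inr ⟨b.1.1, b.1.2.1, b.1.2.2, b.2, (E_eq b.1).symm⟩

theorem upper_zero {a : ℚ} (ha : 0 < a) : upper a 0 = Real.Gamma a := by
  have ha' : (0 : ℝ) < a := by exact_mod_cast ha
  rw [upper, Real.Gamma_eq_integral ha', Rat.cast_zero]
  refine setIntegral_congr_fun measurableSet_Ioi fun t _ => ?_
  exact mul_comm _ _

/-- the translation of the names -/
noncomputable def enc (p : ℚ × ℚ) : ℚ ⊕ Gs :=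
  haveI := Classical.dec
  if h : (0 < p.1 ∧ p.1 < 1) ∧ 0 < p.2 then Sum.inr ⟨p, h⟩ else Sum.inl p.1

theorem enc_zero (a : ℚ) : enc (a, 0) = Sum.inl a := by
  rw [enc, dif_neg]
  rintro ⟨_, h2⟩
  exact lt_irrefl _ h2

theorem enc_pos {p : ℚ × ℚ} (h : (0 < p.1 ∧ p.1 < 1) ∧ 0 < p.2) : enc p = Sum.inr ⟨p, h⟩ := by
  rw [enc, dif_pos h]

theorem enc_fst (p : ℚ × ℚ) : Sum.elim id (fun p : Gs => p.1.1) (enc p) = p.1 := by
  rw [enc]
  split_ifs <;> rfl

theorem enc_inj {p q : ℚ × ℚ} (hp : (0 < p.1 ∧ p.1 < 1) ∧ 0 ≤ p.2) (hq : (0 < q.1 ∧ q.1 < 1) ∧ 0 ≤ q.2)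
    (h : enc p = enc q) : p = q := by
  have h1 : p.1 = q.1 := by rw [← enc_fst p, ← enc_fst q, h]
  obtain ⟨a, x⟩ := p
  obtain ⟨b, y⟩ := q
  simp only at h1
  subst h1
  rcases hp.2.eq_or_lt with h2 | h2 <;> rcases hq.2.eq_or_lt with h3 | h3
  · exact congrArg (Prod.mk a) (h2.symm.trans h3)
  · simp only at h2
    subst h2
    rw [enc_zero, enc_pos ⟨hq.1, h3⟩] at h
    exact absurd h (by simp)
  · simp only at h3
    subst h3
    rw [enc_zero, enc_pos ⟨hp.1, h2⟩] at h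
    exact absurd h (by simp)
  · rw [enc_pos ⟨hp.1, h2⟩, enc_pos ⟨hq.1, h3⟩] at h
    exact congrArg (fun z : Gs => z.1) (Sum.inr_injective h)

theorem enc_val {p : ℚ × ℚ} (hp : (0 < p.1 ∧ p.1 < 1) ∧ 0 ≤ p.2) : UG (enc p) = upper p.1 p.2 := by
  obtain ⟨a, x⟩ := p
  rcases hp.2.eq_or_lt with h2 | h2
  · simp only at h2
    subst h2
    rw [enc_zero]
    exact (upper_zero hp.1.1).symm
  · rw [enc_pos ⟨hp.1, h2⟩]
    rfl

theorem over_M {ι : Type} {f : ι → ℝ} : AlgebraicIndependent bigField f ↔ AlgebraicIndependent ℚ (Sum.elim f bg) := by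
  have hbg : AlgebraicIndependent ℚ bg := by
    have h1 := θG_indepQ.comp Sum.inr Sum.inr_injective
    exact h1
  rw [bigField_eq]
  constructor
  · intro h
    exact AlgebraicIndependent.sumElim_iff.2 ⟨hbg, IntermediateField.algebraicIndependent_adjoin_iff.1 h⟩
  · intro h
    exact IntermediateField.algebraicIndependent_adjoin_iff.2 (AlgebraicIndependent.sumElim_iff.1 h).2

theorem part1 : ∃ N : Set (ℚ × ℚ), (∀ p ∈ N, ∀ q ∈ N, p.1 = q.1 → p = q) ∧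
    AlgebraicIndependent bigField (fun p : {p : ℚ × ℚ // ((0 < p.1 ∧ p.1 < 1) ∧ 0 ≤ p.2) ∧ p ∉ N} =>
      upper p.1.1 p.1.2) := by
  classical
  obtain ⟨C, hC, hC2⟩ := starG_Q
  refine ⟨{p | ((0 < p.1 ∧ p.1 < 1) ∧ 0 ≤ p.2) ∧ enc p ∉ C}, fun p hp q hq h3 => ?_, ?_⟩
  · refine enc_inj hp.1 hq.1 (hC _ _ hp.2 hq.2 ?_)
    rw [enc_fst, enc_fst, h3]
  · rw [over_M]
    have hm : ∀ p : {p : ℚ × ℚ // ((0 < p.1 ∧ p.1 < 1) ∧ 0 ≤ p.2) ∧
        p ∉ {p : ℚ × ℚ | ((0 < p.1 ∧ p.1 < 1) ∧ 0 ≤ p.2) ∧ enc p ∉ C}}, enc p.1 ∈ C := by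
      intro p
      by_contra h
      exact p.2.2 ⟨p.2.1, h⟩
    have h1 := hC2.comp (Sum.map (fun p : {p : ℚ × ℚ // ((0 < p.1 ∧ p.1 < 1) ∧ 0 ≤ p.2) ∧
        p ∉ {p : ℚ × ℚ | ((0 < p.1 ∧ p.1 < 1) ∧ 0 ≤ p.2) ∧ enc p ∉ C}} => (⟨enc p.1, hm p⟩ : C)) id) (by
      refine Function.Injective.sumMap ?_ Function.injective_id
      intro p q h
      exact Subtype.ext (enc_inj p.2.1 q.2.1 (congrArg (fun z : C => z.1) h)))
    have e : (Sum.elim (fun p : {p : ℚ × ℚ // ((0 < p.1 ∧ p.1 < 1) ∧ 0 ≤ p.2) ∧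
        p ∉ {p : ℚ × ℚ | ((0 < p.1 ∧ p.1 < 1) ∧ 0 ≤ p.2) ∧ enc p ∉ C}} => upper p.1.1 p.1.2) bg) =
        (Sum.elim (fun p : C => UG p.1) bg) ∘ (Sum.map (fun p : {p : ℚ × ℚ // ((0 < p.1 ∧ p.1 < 1) ∧ 0 ≤ p.2) ∧
          p ∉ {p : ℚ × ℚ | ((0 < p.1 ∧ p.1 < 1) ∧ 0 ≤ p.2) ∧ enc p ∉ C}} => (⟨enc p.1, hm p⟩ : C)) id) := by
      funext i
      rcases i with p | o
      · exact (enc_val p.2.1).symm
      · rfl
    rw [e]
    exact h1

theorem part2 : ∃ S : Set ℚ, Independent S := by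
  classical
  obtain ⟨N, hN, h⟩ := part1
  refine ⟨{a | (a, 0) ∉ N}, ?_⟩
  rw [Independent]
  have h1 : ∀ a : {a : ℚ // (0 < a ∧ a < 1) ∧ a ∈ {a | (a, (0 : ℚ)) ∉ N}},
      ((0 < a.1 ∧ a.1 < 1) ∧ (0 : ℚ) ≤ 0) ∧ (a.1, (0 : ℚ)) ∉ N := fun a => ⟨⟨a.2.1, le_rfl⟩, a.2.2⟩
  have h2 : ∀ p : {p : ℚ × ℚ // ((0 < p.1 ∧ p.1 < 1) ∧ p.1 ∉ {a | (a, (0 : ℚ)) ∉ N}) ∧ 0 < p.2},
      ((0 < p.1.1 ∧ p.1.1 < 1) ∧ 0 ≤ p.1.2) ∧ p.1 ∉ N := by
    rintro ⟨⟨a, x⟩, ⟨h3, h4⟩, h5⟩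
    refine ⟨⟨h3, h5.le⟩, fun h6 => ?_⟩
    have h7 : (a, (0 : ℚ)) ∈ N := by
      by_contra h8
      exact h4 h8
    have h8 := congrArg (fun z : ℚ × ℚ => z.2) (hN _ h6 _ h7 rfl)
    exact absurd h8 h5.ne'
  have h3 := h.comp (Sum.elim (fun a : {a : ℚ // (0 < a ∧ a < 1) ∧ a ∈ {a | (a, (0 : ℚ)) ∉ N}} =>
      (⟨(a.1, 0), h1 a⟩ : {p : ℚ × ℚ // ((0 < p.1 ∧ p.1 < 1) ∧ 0 ≤ p.2) ∧ p ∉ N}))
      (fun p : {p : ℚ × ℚ // ((0 < p.1 ∧ p.1 < 1) ∧ p.1 ∉ {a | (a, (0 : ℚ)) ∉ N}) ∧ 0 < p.2} => ⟨p.1, h2 p⟩)) (by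
    rintro (a | p) (b | q) hh
    · have h4 := congrArg (fun z : {p : ℚ × ℚ // ((0 < p.1 ∧ p.1 < 1) ∧ 0 ≤ p.2) ∧ p ∉ N} => z.1.1) hh
      exact congrArg Sum.inl (Subtype.ext h4)
    · have h4 := congrArg (fun z : {p : ℚ × ℚ // ((0 < p.1 ∧ p.1 < 1) ∧ 0 ≤ p.2) ∧ p ∉ N} => z.1.2) hh
      exact absurd h4 q.2.2.ne
    · have h4 := congrArg (fun z : {p : ℚ × ℚ // ((0 < p.1 ∧ p.1 < 1) ∧ 0 ≤ p.2) ∧ p ∉ N} => z.1.2) hh
      exact absurd h4 p.2.2.ne'
    · have h4 := congrArg (fun z : {p : ℚ × ℚ // ((0 < p.1 ∧ p.1 < 1) ∧ 0 ≤ p.2) ∧ p ∉ N} => z.1) hh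
      exact congrArg Sum.inr (Subtype.ext h4))
  convert h3 using 1
  funext i
  rcases i with a | p
  · exact (upper_zero a.2.1.1).symm
  · rfl

/-- the gamma values of an independent set together with the base -/
theorem ind_S {S : Set ℚ} (hS : Independent S) : AlgebraicIndependent ℚ
    (Sum.elim (fun a : {a : ℚ // (0 < a ∧ a < 1) ∧ a ∈ S} => Real.Gamma (a : ℚ)) bg) := by
  have h1 := over_M.1 hS
  have h2 := h1.comp (Sum.map Sum.inl id) (Function.Injective.sumMap Sum.inl_injective Function.injective_id)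
  convert h2 using 1
  funext i
  rcases i with a | o <;> rfl

theorem part3 {S : Set ℚ} (hS : Independent S) (A : Finset ℚ) (hA : ∀ a ∈ A, 0 < a ∧ a < 1) (s : ℕ)
    (v : Fin s → A → ℚ) (hv : LinearIndependent ℚ v)
    (hp : ∀ i, IsAlgebraic bigField (∏ a : A, Real.Gamma (a : ℚ) ^ (v i a : ℝ))) : s ≤ {a ∈ (A : Set ℚ) | a ∉ S}.ncard := by
  classical
  have hz : ∀ a : A, 0 < Real.Gamma ((a : ℚ) : ℝ) := by
    intro a
    refine Real.Gamma_pos_of_pos ?_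
    exact_mod_cast (hA a.1 a.2).1
  let K : Finset A := Finset.univ.filter fun a => a.1 ∈ S
  have h1 := Pool.Agent.N778.CH.relations_le (z := fun a : A => Real.Gamma (a : ℚ)) hz (Bs := range bg) K
    (fun a ha hmem => ?_) hv (fun i => ?_)
  · refine h1.trans (le_of_eq ?_)
    have h2 : {a ∈ (A : Set ℚ) | a ∉ S} = ((Finset.univ.filter fun i : A => i ∉ K).image Subtype.val : Finset ℚ) := by
      ext a
      simp only [Set.mem_ofPred_eq, Finset.mem_coe, Finset.coe_image, Set.mem_image, Finset.mem_filter,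
        Finset.mem_univ, true_and, K, Subtype.exists, exists_and_right, exists_eq_right]
      constructor
      · rintro ⟨h3, h4⟩
        exact ⟨h3, h4⟩
      · rintro ⟨h3, h4⟩
        exact ⟨h3, h4⟩
    rw [h2, Set.ncard_coe_finset, Finset.card_image_of_injective _ Subtype.val_injective]
  · have haS : a.1 ∈ S := (Finset.mem_filter.1 ha).2
    let i₀ : {a : ℚ // (0 < a ∧ a < 1) ∧ a ∈ S} ⊕ BG := Sum.inl ⟨a.1, hA a.1 a.2, haS⟩
    have h2 := ((AlgebraicIndependent.iff_transcendental_adjoin_image i₀).1 (ind_S hS)).2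
    refine h2 ?_
    have h3 : Real.Gamma ((a.1 : ℚ) : ℝ) ∈ clF ((Sum.elim (fun a : {a : ℚ // (0 < a ∧ a < 1) ∧ a ∈ S} =>
        Real.Gamma (a : ℚ)) bg) '' {i₀}ᶜ) := by
      refine clF_mono ?_ hmem
      rintro z (⟨o, rfl⟩ | ⟨b, ⟨hb, hba⟩, rfl⟩)
      · exact ⟨Sum.inr o, by simp [i₀], rfl⟩
      · refine ⟨Sum.inl ⟨b.1, hA b.1 b.2, (Finset.mem_filter.1 hb).2⟩, ?_, rfl⟩
        intro h4
        have h5 : b.1 = a.1 :=
          congrArg (fun z : {a : ℚ // (0 < a ∧ a < 1) ∧ a ∈ S} => z.1) (Sum.inl_injective h4)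
        exact hba (Subtype.ext h5)
    exact mem_cl_iff.1 h3
  · have h2 := hp i
    rw [bigField_eq] at h2
    exact mem_clF.2 h2

theorem part4 {S : Set ℚ} (hS : Independent S) {n : ℕ} (hn : 2 ≤ n) :
    3 * 2 ^ (n - 2) - 2 ≤ {j : ℕ | (0 < j ∧ j < 2 ^ n) ∧ ((j : ℚ) / 2 ^ n) ∉ S}.ncard := by
  classical
  let J : Finset ℕ := (Finset.range (2 ^ n)).filter fun j => 0 < j
  let K : Finset ℕ := J.filter fun j => ((j : ℚ) / 2 ^ n) ∈ S
  let N : Finset ℕ := J.filter fun j => ((j : ℚ) / 2 ^ n) ∉ S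
  have hJc : J.card = 2 ^ n - 1 := by
    have h1 : J = (Finset.range (2 ^ n)).erase 0 := by
      ext j
      simp only [J, Finset.mem_filter, Finset.mem_range, Finset.mem_erase]
      constructor
      · rintro ⟨h1, h2⟩
        exact ⟨h2.ne', h1⟩
      · rintro ⟨h1, h2⟩
        exact ⟨h2, Nat.pos_of_ne_zero h1⟩
    rw [h1, Finset.card_erase_of_mem (Finset.mem_range.2 (by positivity)), Finset.card_range]
  have hJ : ∀ j ∈ J, 0 < j ∧ j < 2 ^ n := fun j hj =>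
    ⟨(Finset.mem_filter.1 hj).2, Finset.mem_range.1 (Finset.mem_filter.1 hj).1⟩
  have hfrac : ∀ j ∈ J, 0 < ((j : ℚ) / 2 ^ n) ∧ ((j : ℚ) / 2 ^ n) < 1 := by
    intro j hj
    have h1 := hJ j hj
    have h2 : (0 : ℚ) < j := by exact_mod_cast h1.1
    refine ⟨by positivity, ?_⟩
    rw [div_lt_one (by positivity)]
    exact_mod_cast h1.2
  have hsum : K.card + N.card = J.card := Finset.card_filter_add_card_filter_not _
  have hK : K.card ≤ 2 ^ (n - 2) + 1 := by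
    have h1 := (ind_S hS).comp (fun j : K => (Sum.inl ⟨((j : ℕ) : ℚ) / 2 ^ n,
      hfrac j (Finset.mem_filter.1 j.2).1, (Finset.mem_filter.1 j.2).2⟩ :
        {a : ℚ // (0 < a ∧ a < 1) ∧ a ∈ S} ⊕ BG)) (by
      intro i j hij
      have h2 : ((i : ℕ) : ℚ) / 2 ^ n = ((j : ℕ) : ℚ) / 2 ^ n :=
        congrArg (fun z : {a : ℚ // (0 < a ∧ a < 1) ∧ a ∈ S} => z.1) (Sum.inl_injective hij)
      have h3 : ((i : ℕ) : ℚ) = ((j : ℕ) : ℚ) := by
        have h4 : (2 : ℚ) ^ n ≠ 0 := by positivity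
        field_simp at h2
        exact h2
      exact Subtype.ext (by exact_mod_cast h3))
    have h2 := card_le_card h1 (y := Pool.Agent.N778.CH.gen n) (fun j => by
      have h3 := hJ j.1 (Finset.mem_filter.1 j.2).1
      have h4 := Pool.Agent.N778.CH.gamma_pow_two hn h3.1 h3.2
      show Real.Gamma ((((j.1 : ℕ) : ℚ) / 2 ^ n : ℚ) : ℝ) ∈ _
      have h5 : ((((j.1 : ℕ) : ℚ) / 2 ^ n : ℚ) : ℝ) = ((j.1 : ℕ) : ℝ) / 2 ^ n := by push_cast; rfl
      rw [h5]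
      exact h4)
    rw [Fintype.card_coe, Fintype.card_option, Fintype.card_fin] at h2
    exact h2
  have hpow : 2 ^ n = 4 * 2 ^ (n - 2) := by
    have : n = 2 + (n - 2) := by omega
    conv_lhs => rw [this, pow_add]
    norm_num
  have hset : {j : ℕ | (0 < j ∧ j < 2 ^ n) ∧ ((j : ℚ) / 2 ^ n) ∉ S} = (N : Set ℕ) := by
    ext j
    simp only [N, J, Finset.coe_filter, Finset.mem_filter, Finset.mem_range, Set.mem_ofPred_eq]
    constructor
    · rintro ⟨⟨h1, h2⟩, h3⟩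
      exact ⟨⟨h2, h1⟩, h3⟩
    · rintro ⟨⟨h1, h2⟩, h3⟩
      exact ⟨⟨h2, h1⟩, h3⟩
  rw [hset, Set.ncard_coe_finset]
  have h1 : 1 ≤ 2 ^ (n - 2) := Nat.one_le_two_pow
  omega

theorem part5 (A : Finset ℚ) (hA : ∀ a ∈ A, 0 < a ∧ a < 1) {r : ℕ} (y : Fin r → ℝ)
    (hy : ∀ a ∈ A, IsAlgebraic (IntermediateField.adjoin ℚ ({Real.exp 1} ∪ range y)) (Real.Gamma (a : ℚ)))
    (X : Finset ℚ) (hX : ∀ x ∈ X, 0 < x) (B : Finset (ℚ × ℕ × ℚ)) (hB : ∀ b ∈ B, BaseValid b) (D : ℕ) :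
    ∃ κ : ℕ, ∃ c : ℝ, 0 < c ∧ ∀ H : ℝ, 1 ≤ H → ∃ S : Finset ℚ, (S ⊆ A ∧ S.card ≤ r) ∧
      Good (Sum.elim (base B) (Sum.elim (fun a : {a // a ∈ S} => Real.Gamma (a : ℚ))
        (fun p : {a // a ∈ A ∧ a ∉ S} × X => upper p.1 p.2))) D (c / H ^ κ) H := by
  classical
  let ok : Finset (ℚ × ℚ) → Prop := fun K => ∃ S : Finset ℚ, (S ⊆ A ∧ S.card ≤ r) ∧
    K = S ×ˢ {0} ∪ (A \ S) ×ˢ X
  obtain ⟨κ, c, hc, h⟩ := Pool.Agent.N778.CH.scale_of' (fun p : ℚ × ℚ => upper p.1 p.2)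
    (fun o : Option B => o.elim (Real.exp 1) (fun b => EA (b.1.1 : ℝ) b.1.2.1 (b.1.2.2 : ℝ))) ok (fun σ => by
      obtain ⟨C, hC, hC2⟩ := starG_scale σ
      let S : Finset ℚ := A.filter fun a => Sum.inl a ∈ C
      refine ⟨S ×ˢ {0} ∪ (A \ S) ×ˢ X, ⟨S, ⟨Finset.filter_subset _ _, ?_⟩, rfl⟩, ?_⟩
      · -- the number of the elements of `S`
        have h1 := hC2.comp (fun o : Option S => o.elim (Sum.inr none)
          (fun a => Sum.inl (⟨Sum.inl a.1, (Finset.mem_filter.1 a.2).2⟩ : C))) (by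
          rintro (_ | a) (_ | b) hab
          · rfl
          · exact absurd hab (by simp)
          · exact absurd hab (by simp)
          · have h2 : a.1 = b.1 := Sum.inl_injective (congrArg (fun z : C => z.1) (Sum.inl_injective hab))
            rw [Subtype.ext h2])
        have h2 := card_leA σ h1 (T := cst σ '' ({Real.exp 1} ∪ range y)) (by
          rintro (_ | a)
          · exact subset_clA σ _ ⟨Real.exp 1, Or.inl rfl, rfl⟩
          · have h3 : Real.Gamma ((a.1 : ℚ) : ℝ) ∈ clF ({Real.exp 1} ∪ range y) :=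
              mem_clF.2 (hy _ (Finset.mem_filter.1 a.2).1)
            exact cst_mem σ h3)
        have h3 : (Ma σ).eRk (cst σ '' ({Real.exp 1} ∪ range y)) ≤ (r + 1 : ℕ) := by
          refine (Matroid.eRk_le_encard _ _).trans ((encard_image_le _ _).trans ?_)
          refine (encard_union_le _ _).trans ?_
          rw [encard_singleton, add_comm]
          push_cast
          gcongr
          rw [← image_univ]
          refine (encard_image_le _ _).trans ?_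
          rw [encard_univ, ENat.card_eq_coe_fintype_card, Fintype.card_fin]
        have h4 := h2.trans h3
        rw [Fintype.card_option, Fintype.card_coe] at h4
        have h5 : S.card + 1 ≤ r + 1 := by exact_mod_cast h4
        omega
      · have hm1 : ∀ p ∈ S ×ˢ {0} ∪ (A \ S) ×ˢ X, ((0 < p.1 ∧ p.1 < 1) ∧ 0 ≤ p.2) ∧ enc p ∈ C := by
          rintro ⟨a, x⟩ hp
          rcases Finset.mem_union.1 hp with hp | hp
          · obtain ⟨h1, h2⟩ := Finset.mem_product.1 hp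
            have h3 : x = 0 := Finset.mem_singleton.1 h2
            subst h3
            have h4 := Finset.mem_filter.1 h1
            exact ⟨⟨hA _ h4.1, le_rfl⟩, by rw [enc_zero]; exact h4.2⟩
          · obtain ⟨h1, h2⟩ := Finset.mem_product.1 hp
            obtain ⟨h3, h4⟩ := Finset.mem_sdiff.1 h1
            have h5 : Sum.inl a ∉ C := fun h6 => h4 (Finset.mem_filter.2 ⟨h3, h6⟩)
            have hx := hX x h2
            refine ⟨⟨hA _ h3, hx.le⟩, ?_⟩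
            rw [enc_pos ⟨hA _ h3, hx⟩]
            by_contra h6
            have h7 := hC _ _ h5 h6 rfl
            exact absurd h7 (by simp)
        let g : Option B ⊕ {p // p ∈ S ×ˢ {0} ∪ (A \ S) ×ˢ X} → C ⊕ BG := Sum.elim
          (fun o => Sum.inr (o.map fun b => (⟨b.1, hB _ b.2⟩ : {b // GOK b})))
          (fun p => Sum.inl ⟨enc p.1, (hm1 p.1 p.2).2⟩)
        have hg : Function.Injective g := by
          rintro (o | p) (o' | q) hh
          · have h1 := Option.map_injective (f := fun b : B => (⟨b.1, hB _ b.2⟩ : {b // GOK b})) (by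
              intro a b hab
              exact Subtype.ext (congrArg (fun z : {b // GOK b} => (z : ℚ × ℕ × ℚ)) hab)) (Sum.inr_injective hh)
            rw [h1]
          · exact absurd hh (by simp [g])
          · exact absurd hh (by simp [g])
          · have h1 : enc p.1 = enc q.1 := congrArg (fun z : C => z.1) (Sum.inl_injective hh)
            exact congrArg Sum.inr (Subtype.ext (enc_inj (hm1 _ p.2).1 (hm1 _ q.2).1 h1))
        have h1 := hC2.comp g hg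
        have e : (Sum.elim (fun o : Option B => cst σ (o.elim (Real.exp 1)
            (fun b => EA (b.1.1 : ℝ) b.1.2.1 (b.1.2.2 : ℝ))))
            (fun p : {p // p ∈ S ×ˢ {0} ∪ (A \ S) ×ˢ X} => cst σ (upper p.1.1 p.1.2))) =
            (Sum.elim (fun p : C => cst σ (UG p.1)) (fun o : BG => cst σ (bg o))) ∘ g := by
          funext i
          rcases i with (_ | b) | p
          · rfl
          · rfl
          · show cst σ (upper p.1.1 p.1.2) = cst σ (UG (enc p.1))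
            rw [enc_val (hm1 _ p.2).1]
        rw [e]
        exact h1) D
  refine ⟨κ, c, hc, fun H hH => ?_⟩
  obtain ⟨K, ⟨S, hS, rfl⟩, hgood⟩ := h H hH
  refine ⟨S, hS, ?_⟩
  have hm1 : ∀ a ∈ S, (a, (0 : ℚ)) ∈ S ×ˢ {0} ∪ (A \ S) ×ˢ X := fun a ha =>
    Finset.mem_union_left _ (Finset.mem_product.2 ⟨ha, Finset.mem_singleton_self _⟩)
  have hm2 : ∀ a, a ∈ A ∧ a ∉ S → ∀ x ∈ X, (a, x) ∈ S ×ˢ {0} ∪ (A \ S) ×ˢ X := fun a ha x hx =>
    Finset.mem_union_right _ (Finset.mem_product.2 ⟨Finset.mem_sdiff.2 ha, hx⟩)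
  let g : Option B ⊕ ({a // a ∈ S} ⊕ ({a // a ∈ A ∧ a ∉ S} × X)) → Option B ⊕ {p // p ∈ S ×ˢ {0} ∪ (A \ S) ×ˢ X} :=
    Sum.map id (Sum.elim (fun a => ⟨(a.1, 0), hm1 a.1 a.2⟩) (fun p => ⟨(p.1.1, p.2.1), hm2 p.1.1 p.1.2 p.2.1 p.2.2⟩))
  have hg : Function.Injective g := by
    refine Function.Injective.sumMap Function.injective_id ?_
    rintro (a | p) (b | q) hh
    · have h1 := congrArg (fun z : {p // p ∈ S ×ˢ {0} ∪ (A \ S) ×ˢ X} => z.1.1) hh
      exact congrArg Sum.inl (Subtype.ext h1)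
    · have h1 := congrArg (fun z : {p // p ∈ S ×ˢ {0} ∪ (A \ S) ×ˢ X} => z.1.2) hh
      exact absurd h1 (hX _ q.2.2).ne
    · have h1 := congrArg (fun z : {p // p ∈ S ×ˢ {0} ∪ (A \ S) ×ˢ X} => z.1.2) hh
      exact absurd h1 (hX _ p.2.2).ne'
    · have h1 := congrArg (fun z : {p // p ∈ S ×ˢ {0} ∪ (A \ S) ×ˢ X} => z.1.1) hh
      have h2 := congrArg (fun z : {p // p ∈ S ×ˢ {0} ∪ (A \ S) ×ˢ X} => z.1.2) hh
      have h3 : p = q := Prod.ext (Subtype.ext h1) (Subtype.ext h2)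
      rw [h3]
  have h1 := Pool.Agent.N778.CH.Good.comp hgood hH g hg
  have e : (Sum.elim (base B) (Sum.elim (fun a : {a // a ∈ S} => Real.Gamma (a : ℚ))
      (fun p : {a // a ∈ A ∧ a ∉ S} × X => upper p.1 p.2))) =
      (Sum.elim (fun o : Option B => o.elim (Real.exp 1) (fun b => EA (b.1.1 : ℝ) b.1.2.1 (b.1.2.2 : ℝ)))
        (fun p : {p // p ∈ S ×ˢ {0} ∪ (A \ S) ×ˢ X} => upper p.1.1 p.1.2)) ∘ g := by
    funext i
    rcases i with (_ | b) | (a | p)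
    · rfl
    · exact E_eq b.1
    · exact (upper_zero (hA _ (hS.1 a.2)).1).symm
    · rfl
  rw [e]
  exact h1

theorem result :
    -- (1)
    ((∀ a : ℚ, 0 < a → upper a 0 = Real.Gamma a) ∧
      ∃ N : Set (ℚ × ℚ), (∀ p ∈ N, ∀ q ∈ N, p.1 = q.1 → p = q) ∧
        AlgebraicIndependent bigField (fun p : {p : ℚ × ℚ // ((0 < p.1 ∧ p.1 < 1) ∧ 0 ≤ p.2) ∧ p ∉ N} =>
          upper p.1.1 p.1.2)) ∧
    -- (2)
    (∃ S : Set ℚ, Independent S) ∧
    -- (3)
    (∀ S : Set ℚ, Independent S → ∀ A : Finset ℚ, (∀ a ∈ A, 0 < a ∧ a < 1) → ∀ (s : ℕ) (v : Fin s → A → ℚ),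
      LinearIndependent ℚ v → (∀ i, IsAlgebraic bigField (∏ a : A, Real.Gamma (a : ℚ) ^ (v i a : ℝ))) →
        s ≤ {a ∈ (A : Set ℚ) | a ∉ S}.ncard) ∧
    -- (4)
    (∀ S : Set ℚ, Independent S → ∀ n : ℕ, 2 ≤ n →
      3 * 2 ^ (n - 2) - 2 ≤ {j : ℕ | (0 < j ∧ j < 2 ^ n) ∧ ((j : ℚ) / 2 ^ n) ∉ S}.ncard) ∧
    -- (5)
    (∀ A : Finset ℚ, (∀ a ∈ A, 0 < a ∧ a < 1) → ∀ (r : ℕ) (y : Fin r → ℝ),
      (∀ a ∈ A, IsAlgebraic (IntermediateField.adjoin ℚ ({Real.exp 1} ∪ range y)) (Real.Gamma (a : ℚ))) →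
      ∀ X : Finset ℚ, (∀ x ∈ X, 0 < x) → ∀ B : Finset (ℚ × ℕ × ℚ), (∀ b ∈ B, BaseValid b) → ∀ D : ℕ,
        ∃ κ : ℕ, ∃ c : ℝ, 0 < c ∧ ∀ H : ℝ, 1 ≤ H → ∃ S : Finset ℚ, (S ⊆ A ∧ S.card ≤ r) ∧
          Good (Sum.elim (base B) (Sum.elim (fun a : {a // a ∈ S} => Real.Gamma (a : ℚ))
            (fun p : {a // a ∈ A ∧ a ∉ S} × X => upper p.1 p.2))) D (c / H ^ κ) H) :=
  ⟨⟨fun a ha => upper_zero ha, part1⟩, part2, fun S hS A hA s v hv hp => part3 hS A hA s v hv hp,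
    fun S hS n hn => part4 hS hn, fun A hA r y hy X hX B hB D => part5 A hA y hy X hX B hB D⟩

end Pool.Agent.Results.MP_c2409d_nt.CompleteFamilies
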