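import Mathlib
import Pool.Agent.N778.AF.Tp2
import Pool.Agent.N778.AF.Sim

set_option autoImplicit false

/-!
# Products of gamma values and powers of `π`, and the incomplete gamma function, scale by scale

Let `A` be a finite set of rational numbers in `(0, 1)`. For rational exponents `v = (v_π, (v_a)_{a ∈ A})` let
`P(v) = π^(v_π) ∏_{a ∈ A} Γ(a)^(v_a)`. (So the product `Γ(a_1) ⋯ Γ(a_r) / π^(r/2)` of the question is `P(v)`, where
`v_a` is the number of the `i` with `a_i = a` and `v_π = -r/2`.) For rational `x > 0` let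
`Γ(a, x) = ∫_x^∞ t^(a-1) e^(-t) dt`.

(1) `Γ(a, 0) = Γ(a)`.

Let `v_1, …, v_s, w_1, …, w_k` be linearly independent exponent vectors, such that the numbers `P(v_i)` are algebraic, or
algebraic over `ℚ(e)`. (For example, let the `v_i` come from the known relations between the gamma values, or from
counterexamples to Rohrlich's conjecture; `s = 0` is allowed.) We consider the following numbers with names: `P(w_j)`,
`1 ≤ j ≤ k`, and `Γ(a, x)`, `a ∈ A`, `x > 0` rational. Let `T`, `N` be disjoint finite sets of names; the numbers are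
called `t_i`, `i ∈ T`, and `u_j`, `j ∈ N`.

(2) Let `T` have at least `|A| + 1 - s` elements. For every `D` there are `κ` and `c > 0` such that for all `H ≥ 1` and
all nonzero integral polynomials `Q_i(X, Y)` (`i ∈ T`), `P(Y, (X_j))` (`j ∈ N`) of degree at most `D` and with
coefficients at most `H` in absolute value, `|Q_i(t_i, e)| ≥ c / H ^ κ` for some `i`, or
`|P(e, (u_j))| ≥ c / H ^ κ`. So if at the scale `H` the products `P(w_j)` and `|A| + 1 - s - k` of the numbers `Γ(a, x)`
are near numbers algebraic over `ℚ(e)` (of bounded degree) then the other numbers `Γ(a, x)` and `e` do not satisfy any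
relation approximately. Each algebraic product `P(v_i)` lowers the number of near values which is needed.

(3) Let `s + k = |A| + 1`, let `T`, `N` consist of names of numbers `Γ(a, x)` only and let `T` have at least `k - 1`
elements. For every `D` there are `κ` and `c > 0` such that for all `H ≥ 1` and all nonzero integral polynomials `F`,
`Q_i`, `P` of degree at most `D` and with coefficients at most `H` in absolute value
`|F(e, P(w_1), …, P(w_k))| ≥ c / H ^ κ` or `|Q_i(t_i, e)| ≥ c / H ^ κ` for some `i`, or `|P(e, (u_j))| ≥ c / H ^ κ`.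

(4) Let `T` have at least `|A| + 1 - s` elements and let the numbers `t_i`, `i ∈ T`, be simultaneously approximable to
every order (for all `m` there are integers `q ≥ 2` and `p_i` with `|t_i - p_i / q| < q ^ (-m)`; so it is if they are
rational). Then `e` and the numbers `u_j` are algebraically independent.

(5) In particular: let `a_1, …, a_r` be rational numbers in `(0, 1)`, `A` the set of these numbers, and let the product
`Γ(a_1) ⋯ Γ(a_r) / π^(r/2)` be algebraic (over `ℚ(e)`). If `|A|` of the numbers `Γ(a, x)`, `a ∈ A`, `x > 0`, are rational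
(or simultaneously approximable as in (4)), then `e` and all the other ones of these numbers are algebraically
independent.
-/

namespace Pool.Agent.Results.MP_c2409d_nt.ProductScales

open Set MeasureTheory

/-- `Γ(a, x) = ∫_x^∞ t^(a-1) e^(-t) dt` for the pair `(a, x)` -/
noncomputable def upper (p : ℚ × ℚ) : ℝ := ∫ t in Ioi (p.2 : ℝ), t ^ ((p.1 : ℝ) - 1) * Real.exp (-t)

/-- the numbers `π` and `Γ(a)`, `a ∈ A` -/
noncomputable def base (A : Finset ℚ) (o : Option A) : ℝ := o.elim Real.pi fun a => Real.Gamma (a : ℚ)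

/-- `P(v) = π^(v_π) ∏_{a ∈ A} Γ(a)^(v_a)` -/
noncomputable def product (A : Finset ℚ) (v : Option A → ℚ) : ℝ := ∏ o, base A o ^ (v o : ℝ)

/-- the number `z` is algebraic over the field `ℚ(e)` -/
def AlgebraicOverE (z : ℝ) : Prop := IsAlgebraic (IntermediateField.adjoin ℚ {Real.exp 1}) z

/-- the number with a given name: `P(w_j)` or `Γ(a, x)` -/
noncomputable def value {A : Finset ℚ} {k : ℕ} (w : Fin k → Option A → ℚ) : Fin k ⊕ (ℚ × ℚ) → ℝ :=
  Sum.elim (fun j => product A (w j)) upper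

/-- the name is considered: `a ∈ A` and `x > 0` for the name of `Γ(a, x)` -/
def Valid (A : Finset ℚ) {k : ℕ} (n : Fin k ⊕ (ℚ × ℚ)) : Prop := ∀ p, n = Sum.inr p → p.1 ∈ A ∧ 0 < p.2

/-- the height of the polynomial `P` is at most `H` -/
def HeightLE {σ : Type} (P : MvPolynomial σ ℤ) (H : ℝ) : Prop := ∀ s, |((P.coeff s : ℤ) : ℝ)| ≤ H

/-- For every `D` there are `κ` and `c > 0` such that for all nonzero integral polynomials `Q_i(X, Y)` and `P(Y, (X_j))`
of degree at most `D` and height at most `H`, `H ≥ 1`, one of the numbers `Q_i(v_i, e)`, `P(e, (u_j))` is at least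
`c / H ^ κ` in absolute value. -/
def Dichotomy {ι ι' : Type} (v : ι → ℝ) (u : ι' → ℝ) : Prop :=
  ∀ D : ℕ, ∃ κ : ℕ, ∃ c : ℝ, 0 < c ∧ ∀ (Q : ι → MvPolynomial (Fin 2) ℤ) (P : MvPolynomial (Option ι') ℤ),
    (∀ i, Q i ≠ 0) → P ≠ 0 → (∀ i, (Q i).totalDegree ≤ D) → P.totalDegree ≤ D → ∀ H : ℝ, 1 ≤ H →
    (∀ i, HeightLE (Q i) H) → HeightLE P H →
      (∃ i, c / H ^ κ ≤ |MvPolynomial.aeval ![v i, Real.exp 1] (Q i)|) ∨
        c / H ^ κ ≤ |MvPolynomial.aeval (fun o : Option ι' => o.elim (Real.exp 1) u) P|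

/-- The same with a third possibility: `|F(e, (y_l))| ≥ c / H ^ κ`. -/
def Trichotomy {ι₀ ι ι' : Type} (y : ι₀ → ℝ) (v : ι → ℝ) (u : ι' → ℝ) : Prop :=
  ∀ D : ℕ, ∃ κ : ℕ, ∃ c : ℝ, 0 < c ∧ ∀ (F : MvPolynomial (Option ι₀) ℤ) (Q : ι → MvPolynomial (Fin 2) ℤ)
    (P : MvPolynomial (Option ι') ℤ), F ≠ 0 → (∀ i, Q i ≠ 0) → P ≠ 0 → F.totalDegree ≤ D →
    (∀ i, (Q i).totalDegree ≤ D) → P.totalDegree ≤ D → ∀ H : ℝ, 1 ≤ H → HeightLE F H →
    (∀ i, HeightLE (Q i) H) → HeightLE P H →
      c / H ^ κ ≤ |MvPolynomial.aeval (fun o : Option ι₀ => o.elim (Real.exp 1) y) F| ∨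
      (∃ i, c / H ^ κ ≤ |MvPolynomial.aeval ![v i, Real.exp 1] (Q i)|) ∨
        c / H ^ κ ≤ |MvPolynomial.aeval (fun o : Option ι' => o.elim (Real.exp 1) u) P|

open Pool.Agent.N778.AF (Dx Dy GC VN G_c1 G_c2 Dx_transport')
open Pool.Agent.R352.E (clF mem_clF subset_clF clF_mono clF_le of_pow)

variable {A : Finset ℚ}

theorem base_pos (hA : ∀ a ∈ A, 0 < a ∧ a < 1) (o : Option A) : 0 < base A o := by
  cases o with
  | none => exact Real.pi_pos
  | some a =>
    refine Real.Gamma_pos_of_pos ?_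
    have := (hA a.1 a.2).1
    exact_mod_cast this

theorem product_pos (hA : ∀ a ∈ A, 0 < a ∧ a < 1) (v : Option A → ℚ) : 0 < product A v :=
  Finset.prod_pos fun o _ => Real.rpow_pos_of_pos (base_pos hA o) _

theorem rpow_mem {C : Set ℝ} {z : ℝ} (hz : 0 < z) (h : z ∈ clF C) (q : ℚ) : z ^ (q : ℝ) ∈ clF C := by
  refine of_pow (n := q.den) q.den_nz ?_
  have h1 : (z ^ (q : ℝ)) ^ q.den = z ^ q.num := by
    rw [← Real.rpow_natCast, ← Real.rpow_mul hz.le, ← Real.rpow_intCast]
    congr 1
    have h2 : (q : ℝ) = (q.num : ℝ) / (q.den : ℝ) := by exact_mod_cast (Rat.num_div_den q).symm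
    have h3 : (q.den : ℝ) ≠ 0 := by exact_mod_cast q.den_nz
    rw [h2]
    field_simp
  rw [h1]
  exact zpow_mem h _

/-- the exponents `v` for which `P(v)` is in the closed field -/
noncomputable def sub (hA : ∀ a ∈ A, 0 < a ∧ a < 1) (C : Set ℝ) : Submodule ℚ (Option A → ℚ) where
  carrier := {v | product A v ∈ clF C}
  zero_mem' := by
    have : product A 0 = 1 := by simp [product]
    show product A 0 ∈ clF C
    rw [this]
    exact (clF C).one_mem
  add_mem' := by
    intro v w hv hw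
    have : product A (v + w) = product A v * product A w := by
      rw [product, product, product, ← Finset.prod_mul_distrib]
      refine Finset.prod_congr rfl fun o _ => ?_
      rw [Pi.add_apply, Rat.cast_add, Real.rpow_add (base_pos hA o)]
    show product A (v + w) ∈ clF C
    rw [this]
    exact (clF C).mul_mem hv hw
  smul_mem' := by
    intro q v hv
    have : product A (q • v) = product A v ^ (q : ℝ) := by
      rw [product, product, ← Real.finsetProd_rpow _ _ fun o _ => (Real.rpow_pos_of_pos (base_pos hA o) _).le]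
      refine Finset.prod_congr rfl fun o _ => ?_
      rw [Pi.smul_apply, smul_eq_mul, Rat.cast_mul, mul_comm, Real.rpow_mul (base_pos hA o).le]
    show product A (q • v) ∈ clF C
    rw [this]
    exact rpow_mem (product_pos hA v) hv q

theorem base_mem (hA : ∀ a ∈ A, 0 < a ∧ a < 1) {C : Set ℝ} {S : Set (Option A → ℚ)} (hS : ⊤ ≤ Submodule.span ℚ S)
    (h : ∀ v ∈ S, product A v ∈ clF C) (o : Option A) : base A o ∈ clF C := by
  classical
  have h1 : Submodule.span ℚ S ≤ sub hA C := Submodule.span_le.2 h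
  have h2 : Pi.single o 1 ∈ sub hA C := h1 (hS trivial)
  have h3 : product A (Pi.single o 1) = base A o := by
    rw [product, Finset.prod_eq_single o]
    · simp
    · intro o' _ ho'
      rw [Pi.single_eq_of_ne ho']
      simp
    · intro h
      exact absurd (Finset.mem_univ o) h
  rw [← h3]
  exact h2

theorem finrank_eq : Module.finrank ℚ (Option A → ℚ) = A.card + 1 := by
  rw [Module.finrank_fintype_fun_eq_card, Fintype.card_option, Fintype.card_coe]

theorem part2 (hA : ∀ a ∈ A, 0 < a ∧ a < 1) {s k : ℕ} {v : Fin s → Option A → ℚ} {w : Fin k → Option A → ℚ}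
    (hvw : LinearIndependent ℚ (Sum.elim v w)) (hv : ∀ i, AlgebraicOverE (product A (v i)))
    {T N : Finset (Fin k ⊕ (ℚ × ℚ))} (hT : ∀ n ∈ T, Valid A n) (hN : ∀ n ∈ N, Valid A n) (hd : Disjoint T N)
    (hcard : A.card + 1 ≤ T.card + s) : Dx (fun i : T => value w i) (fun j : N => value w j) := by
  classical
  obtain ⟨B, -, hB1, hB2, hB3⟩ := exists_linearIndepOn_id_extension hvw.linearIndepOn_id (subset_univ _)
  have hfin : B.Finite := LinearIndependent.setFinite hB3
  have := hfin.fintype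
  have hspan : (⊤ : Submodule ℚ (Option A → ℚ)) ≤ Submodule.span ℚ B := fun z _ => hB2 (mem_univ z)
  have hBcard : Fintype.card B ≤ A.card + 1 := by
    rw [← finrank_eq]
    exact LinearIndependent.fintype_card_le_finrank hB3
  have hinj := hvw.injective
  have hvB : ∀ i, v i ∈ B := fun i => hB1 ⟨Sum.inl i, rfl⟩
  have hwB : ∀ j, w j ∈ B := fun j => hB1 ⟨Sum.inr j, rfl⟩
  have hwv : ∀ j, w j ∉ range v := by
    rintro j ⟨i, hi⟩
    have h1 : Sum.elim v w (Sum.inl i) = Sum.elim v w (Sum.inr j) := hi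
    exact absurd (hinj h1) (by simp)
  let α : Type := {z : B // z.1 ∉ range v}
  let c : α → ℝ := fun z => product A z.1.1
  have hα : Fintype.card α + s ≤ A.card + 1 := by
    refine le_trans ?_ hBcard
    have h1 : Fintype.card (α ⊕ Fin s) ≤ Fintype.card B := by
      refine Fintype.card_le_of_injective (Sum.elim (fun z : α => z.1) fun i => (⟨v i, hvB i⟩ : B)) ?_
      rintro (a | a) (b | b) hab
      · exact congrArg Sum.inl (Subtype.ext hab)
      · exfalso
        have h2 : a.1.1 = v b := congrArg Subtype.val hab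
        exact a.2 ⟨b, h2.symm⟩
      · exfalso
        have h2 : v a = b.1.1 := congrArg Subtype.val hab
        exact b.2 ⟨a, h2⟩
      · have h2 : v a = v b := congrArg Subtype.val hab
        have h3 : (Sum.inl a : Fin s ⊕ Fin k) = Sum.inl b := hinj h2
        exact congrArg Sum.inr (Sum.inl_injective h3)
    rw [Fintype.card_sum, Fintype.card_fin] at h1
    exact h1
  have hGC : GC c (A : Set ℚ) := by
    intro a ha
    refine ⟨hA a ha, ?_⟩
    refine base_mem hA (S := B) hspan (fun z hz => ?_) (some ⟨a, ha⟩)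
    by_cases hzv : z ∈ range v
    · obtain ⟨i, rfl⟩ := hzv
      exact clF_mono subset_union_left (mem_clF.2 (hv i))
    · exact subset_clF _ (Or.inr ⟨⟨⟨z, hz⟩, hzv⟩, rfl⟩)
  let f : {n : Fin k ⊕ (ℚ × ℚ) // Valid A n} → α ⊕ (ℚ × ℚ) := fun n =>
    match n with
    | ⟨Sum.inl j, _⟩ => Sum.inl ⟨⟨w j, hwB j⟩, hwv j⟩
    | ⟨Sum.inr p, _⟩ => Sum.inr p
  have hf : Function.Injective f := by
    rintro ⟨a | a, ha⟩ ⟨b | b, hb⟩ hab
    · have h1 : w a = w b := congrArg (fun z : α ⊕ (ℚ × ℚ) => Sum.elim (fun y : α => y.1.1) (fun _ => 0) z) hab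
      have h2 : (Sum.inr a : Fin s ⊕ Fin k) = Sum.inr b := hinj h1
      have h3 := Sum.inr_injective h2
      subst h3
      rfl
    · simp [f] at hab
    · simp [f] at hab
    · have h1 : a = b := Sum.inr_injective hab
      subst h1
      rfl
  refine Dx_transport' (valid' := VN α (A : Set ℚ)) (g := Sum.elim c fun p : ℚ × ℚ => Pool.Agent.R352.T.gu p.1 p.2) f hf ?_ ?_
    (r := Fintype.card α) (fun t N ht hN h1 h' => G_c1 hGC t N ht hN h1 h') hT hN (by omega) hd
  · rintro ⟨a | a, ha⟩ <;> rfl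
  · rintro ⟨a | a, ha⟩ p hp
    · simp [f] at hp
    · have h1 : a = p := Sum.inr_injective hp
      subst h1
      exact ha _ rfl

theorem part3 (hA : ∀ a ∈ A, 0 < a ∧ a < 1) {s k : ℕ} {v : Fin s → Option A → ℚ} {w : Fin k → Option A → ℚ}
    (hvw : LinearIndependent ℚ (Sum.elim v w)) (hv : ∀ i, AlgebraicOverE (product A (v i))) (hsk : s + k = A.card + 1)
    {T N : Finset (ℚ × ℚ)} (hT : ∀ p ∈ T, p.1 ∈ A ∧ 0 < p.2) (hN : ∀ p ∈ N, p.1 ∈ A ∧ 0 < p.2) (hd : Disjoint T N)
    (hcard : k ≤ T.card + 1) : Dy (fun j => product A (w j)) (fun i : T => upper i) (fun j : N => upper j) := by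
  classical
  have hspan : (⊤ : Submodule ℚ (Option A → ℚ)) ≤ Submodule.span ℚ (range (Sum.elim v w)) := by
    rw [hvw.span_eq_top_of_card_eq_finrank' (by rw [Fintype.card_sum, Fintype.card_fin, Fintype.card_fin, finrank_eq, hsk])]
  have hGC : GC (fun j => product A (w j)) (A : Set ℚ) := by
    intro a ha
    refine ⟨hA a ha, base_mem hA hspan ?_ (some ⟨a, ha⟩)⟩
    rintro _ ⟨i | j, rfl⟩
    · exact clF_mono subset_union_left (mem_clF.2 (hv i))
    · exact subset_clF _ (Or.inr ⟨j, rfl⟩)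
  exact G_c2 hGC T N (by
    rintro p (hp | hp)
    · exact hT p hp
    · exact hN p hp) (by rw [Fintype.card_fin]; exact hcard) hd

/-- the product of the question -/
noncomputable def listProduct (l : List ℚ) : ℝ :=
  (l.map fun a : ℚ => Real.Gamma (a : ℝ)).prod / Real.pi ^ ((l.length : ℝ) / 2)

/-- its exponent vector -/
def expo (l : List ℚ) (o : Option l.toFinset) : ℚ := o.elim (-(l.length : ℚ) / 2) fun a => (l.count a.1 : ℚ)

theorem listProduct_eq (l : List ℚ) : listProduct l = product l.toFinset (expo l) := by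
  rw [product, Fintype.prod_option, listProduct, div_eq_mul_inv, mul_comm]
  congr 1
  · show _ = Real.pi ^ (((-(l.length : ℚ) / 2 : ℚ)) : ℝ)
    rw [← Real.rpow_neg Real.pi_pos.le]
    congr 1
    push_cast
    ring
  · rw [Finset.prod_list_map_count]
    have h1 : ∀ a : ℚ, Real.Gamma (a : ℝ) ^ l.count a = Real.Gamma (a : ℝ) ^ (((l.count a : ℚ)) : ℝ) := by
      intro a
      rw [← Real.rpow_natCast]
      push_cast
      rfl
    rw [Finset.prod_congr rfl fun a _ => h1 a]
    exact (Finset.prod_coe_sort l.toFinset fun a : ℚ => Real.Gamma (a : ℝ) ^ (((l.count a : ℚ)) : ℝ)).symm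

theorem part5 (l : List ℚ) (hl : l ≠ []) (hl1 : ∀ a ∈ l, 0 < a ∧ a < 1) (halg : AlgebraicOverE (listProduct l))
    (T N : Finset (ℚ × ℚ)) (hT : ∀ p ∈ T, p.1 ∈ l ∧ 0 < p.2) (hN : ∀ p ∈ N, p.1 ∈ l ∧ 0 < p.2) (hd : Disjoint T N)
    (hcard : l.toFinset.card ≤ T.card)
    (h : ∀ m : ℕ, ∃ q : ℕ, 2 ≤ q ∧ ∃ p : T → ℤ, ∀ i : T, |upper i - p i / q| < 1 / (q : ℝ) ^ m) :
    AlgebraicIndependent ℚ (fun o : Option N => o.elim (Real.exp 1) (fun j => upper j)) := by
  classical
  have hA : ∀ a ∈ l.toFinset, 0 < a ∧ a < 1 := fun a ha => hl1 a (List.mem_toFinset.1 ha)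
  have hne : expo l ≠ 0 := by
    intro h0
    have h1 := congrFun h0 none
    have h2 : (-(l.length : ℚ) / 2 : ℚ) = 0 := h1
    have h3 : (l.length : ℚ) = 0 := by linarith
    have h4 : l.length = 0 := by exact_mod_cast h3
    exact hl (List.length_eq_zero_iff.1 h4)
  have hli : LinearIndependent ℚ (Sum.elim (fun _ : Fin 1 => expo l) (Fin.elim0 : Fin 0 → Option l.toFinset → ℚ)) := by
    have h1 : LinearIndependent ℚ (fun _ : Fin 1 => expo l) := by
      rw [linearIndependent_unique_iff]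
      exact hne
    have h2 := h1.comp (Sum.elim id Fin.elim0 : Fin 1 ⊕ Fin 0 → Fin 1) (by
      rintro (a | a) (b | b) _
      · exact congrArg Sum.inl (Subsingleton.elim _ _)
      · exact b.elim0
      · exact a.elim0
      · exact a.elim0)
    convert h2 using 1
    funext z
    rcases z with z | z
    · rfl
    · exact z.elim0
  have h1 := part2 hA hli (fun _ => by rw [← listProduct_eq]; exact halg)
    (T := T.map ⟨Sum.inr, Sum.inr_injective⟩) (N := N.map ⟨Sum.inr, Sum.inr_injective⟩) (by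
      intro n hn p hp
      obtain ⟨p', hp', rfl⟩ := Finset.mem_map.1 hn
      have : p' = p := Sum.inr_injective hp
      subst this
      exact ⟨List.mem_toFinset.2 (hT _ hp').1, (hT _ hp').2⟩) (by
      intro n hn p hp
      obtain ⟨p', hp', rfl⟩ := Finset.mem_map.1 hn
      have : p' = p := Sum.inr_injective hp
      subst this
      exact ⟨List.mem_toFinset.2 (hN _ hp').1, (hN _ hp').2⟩) ((Finset.disjoint_map _).2 hd)
    (by rw [Finset.card_map]; omega)
  have h2 : Dx (fun i : T => upper i) (fun j : N => upper j) := by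
    refine h1.mono (fun i => (⟨(Finset.mem_map.1 i.2).choose, (Finset.mem_map.1 i.2).choose_spec.1⟩ : T)) (fun i => ?_)
      (fun j : N => ⟨Sum.inr j.1, Finset.mem_map_of_mem _ j.2⟩) (fun a b hab => ?_) (fun j => rfl)
    · have h3 : Sum.inr (Finset.mem_map.1 i.2).choose = i.1 := (Finset.mem_map.1 i.2).choose_spec.2
      exact congrArg (value (A := l.toFinset) (Fin.elim0 : Fin 0 → Option l.toFinset → ℚ)) h3
    · exact Subtype.ext (Sum.inr_injective (congrArg Subtype.val hab))
  exact h2.indep_sim h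

theorem result :
    -- (1)
    (∀ a : ℚ, 0 < a → upper (a, 0) = Real.Gamma a) ∧
    -- (2), (3), (4)
    (∀ A : Finset ℚ, (∀ a ∈ A, 0 < a ∧ a < 1) → ∀ (s k : ℕ) (v : Fin s → Option A → ℚ) (w : Fin k → Option A → ℚ),
      LinearIndependent ℚ (Sum.elim v w) → (∀ i, AlgebraicOverE (product A (v i))) →
      (∀ T N : Finset (Fin k ⊕ (ℚ × ℚ)), (∀ n ∈ T, Valid A n) → (∀ n ∈ N, Valid A n) → Disjoint T N →
        A.card + 1 ≤ T.card + s → Dichotomy (fun i : T => value w i) (fun j : N => value w j)) ∧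
      (s + k = A.card + 1 → ∀ T N : Finset (ℚ × ℚ), (∀ p ∈ T, p.1 ∈ A ∧ 0 < p.2) → (∀ p ∈ N, p.1 ∈ A ∧ 0 < p.2) →
        Disjoint T N → k ≤ T.card + 1 →
        Trichotomy (fun j => product A (w j)) (fun i : T => upper i) (fun j : N => upper j)) ∧
      (∀ T N : Finset (Fin k ⊕ (ℚ × ℚ)), (∀ n ∈ T, Valid A n) → (∀ n ∈ N, Valid A n) → Disjoint T N →
        A.card + 1 ≤ T.card + s →
        (∀ m : ℕ, ∃ q : ℕ, 2 ≤ q ∧ ∃ p : T → ℤ, ∀ i : T, |value w i - p i / q| < 1 / (q : ℝ) ^ m) →
        AlgebraicIndependent ℚ (fun o : Option N => o.elim (Real.exp 1) (fun j => value w j)))) ∧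
    -- (5)
    (∀ l : List ℚ, l ≠ [] → (∀ a ∈ l, 0 < a ∧ a < 1) → AlgebraicOverE (listProduct l) →
      ∀ T N : Finset (ℚ × ℚ), (∀ p ∈ T, p.1 ∈ l ∧ 0 < p.2) → (∀ p ∈ N, p.1 ∈ l ∧ 0 < p.2) → Disjoint T N →
      l.toFinset.card ≤ T.card →
      (∀ m : ℕ, ∃ q : ℕ, 2 ≤ q ∧ ∃ p : T → ℤ, ∀ i : T, |upper i - p i / q| < 1 / (q : ℝ) ^ m) →
      AlgebraicIndependent ℚ (fun o : Option N => o.elim (Real.exp 1) (fun j => upper j))) := by
  refine ⟨fun a ha => ?_, fun A hA s k v w hvw hv => ⟨fun T N hT hN hd hc => part2 hA hvw hv hT hN hd hc,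
    fun hsk T N hT hN hd hc => part3 hA hvw hv hsk hT hN hd hc,
    fun T N hT hN hd hc h => (part2 hA hvw hv hT hN hd hc).indep_sim h⟩, part5⟩
  rw [Real.Gamma_eq_integral (by exact_mod_cast ha), upper]
  simp only [Rat.cast_zero]
  refine integral_congr_ae (Filter.Eventually.of_forall fun t => ?_)
  exact mul_comm _ _

end Pool.Agent.Results.MP_c2409d_nt.ProductScales
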